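import Pool.Agent.H553.CT.Fin

/-!
# Sequences have large discrepancy at almost all times: the exponent `(d+1)/2`

For every sequence in `[0,1)^d`, `d ≥ 2`, and every `ε > 0` the lower bound
`N D_N ≥ c (ln N)^((d+1)/2) / (1 + ln ln N)^A` fails for at most `X^ε` numbers `N < X`; every window of `H`
consecutive numbers contains at most `H^ε` numbers at which the discrepancy function (with arbitrary
weights of the points, and minus a function of the position alone and functions of the time and `d - 1` of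
the coordinates) is smaller than `c (ln H)^((d+1)/2) / (1 + ln ln H)^A` everywhere.
-/

set_option autoImplicit false

namespace Pool.Agent.Results.MP_f4022e_nt.AlmostAllTimesHalfDim

open MeasureTheory
open Pool.Agent.H553.CT (DW main_log cor_log log_facts)

/-- The discrepancy function at the time `n` of the sequence `z` with the weights `w`: the sum of the
weights `w_k` of the `k < n` with `z_k ≤ x` (coordinatewise) minus `n ∏ x_i`. -/
noncomputable def wDisc {d : ℕ} (w : ℕ → ℝ) (z : ℕ → Fin d → ℝ) (n : ℕ) (x : Fin d → ℝ) : ℝ :=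
  ∑ k ∈ Finset.range n, w k * (Set.Iic x).indicator (fun _ => (1 : ℝ)) (z k) - n * ∏ i, x i

/-- `g (x, n) = f (x) + ∑_k h_k (x, n)`, where `h_k` does not depend on `x_k` (no measurability). -/
def FewerVars {d : ℕ} (g : (Fin d → ℝ) → ℕ → ℝ) : Prop :=
  ∃ (f : (Fin d → ℝ) → ℝ) (h : Fin d → (Fin d → ℝ) → ℕ → ℝ),
    (∀ (k : Fin d) (x : Fin d → ℝ) (t : ℝ) (n : ℕ), h k (Function.update x k t) n = h k x n) ∧
    g = fun x n => f x + ∑ k, h k x n

open Classical in
/-- The extreme discrepancy `D_N` of the first `N` points of a sequence: the supremum of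
`|A_N(B)/N - λ(B)|` over all products `B` of subintervals of `[0,1)`. -/
noncomputable def extDisc {d : ℕ} (z : ℕ → Fin d → ℝ) (N : ℕ) : ℝ :=
  sSup {r : ℝ | ∃ I : Fin d → Set ℝ, (∀ i, (I i).OrdConnected ∧ I i ⊆ Set.Ico 0 1) ∧
    r = |(((Finset.range N).filter (fun n => z n ∈ Set.univ.pi I)).card : ℝ) / N -
      (volume (Set.univ.pi I)).toReal|}

theorem DW_eq {d : ℕ} (w : ℕ → ℝ) (z : ℕ → Fin d → ℝ) (f : (Fin d → ℝ) → ℝ)
    (h : Fin d → (Fin d → ℝ) → ℕ → ℝ) (n : ℕ) (x : Fin d → ℝ) :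
    DW w z f h n x = wDisc w z n x - (f x + ∑ k, h k x n) := by
  unfold DW wDisc
  congr 2
  refine Finset.sum_congr rfl fun k _ => ?_
  congr 1
  by_cases hx : ∀ i, z k i ≤ x i
  · rw [if_pos hx, Set.indicator_of_mem (show z k ∈ Set.Iic x from hx)]
  · rw [if_neg hx, Set.indicator_of_notMem (show z k ∉ Set.Iic x from hx)]

/-- the discrepancy function is at most `N D_N` -/
theorem le_extDisc {d : ℕ} (z : ℕ → Fin d → ℝ)
    (hz : ∀ n i, 0 ≤ z n i ∧ z n i < 1) (N : ℕ) (hN : 1 ≤ N) (x : Fin d → ℝ)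
    (hx : ∀ i, 0 < x i ∧ x i < 1) : |DW (fun _ => 1) z 0 0 N x| ≤ N * extDisc z N := by
  classical
  have hN0 : (0 : ℝ) < N := by exact_mod_cast hN
  -- the volume of a box
  have hvol : ∀ I : Fin d → Set ℝ, (∀ i, (I i).OrdConnected ∧ I i ⊆ Set.Ico 0 1) →
      (volume (Set.univ.pi I)).toReal ≤ 1 := by
    intro I hI
    have h1 : volume (Set.univ.pi I) ≤ volume (Set.Icc (0 : Fin d → ℝ) 1) := by
      apply measure_mono
      intro y hy
      refine ⟨fun i => ?_, fun i => ?_⟩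
      · exact ((hI i).2 (hy i (Set.mem_univ i))).1
      · exact ((hI i).2 (hy i (Set.mem_univ i))).2.le
    have h2 : volume (Set.Icc (0 : Fin d → ℝ) 1) = 1 := by
      rw [Real.volume_Icc_pi]
      simp
    rw [h2] at h1
    exact ENNReal.toReal_le_of_le_ofReal (by norm_num) (by simpa using h1)
  have hbdd : BddAbove {r : ℝ | ∃ I : Fin d → Set ℝ,
      (∀ i, (I i).OrdConnected ∧ I i ⊆ Set.Ico 0 1) ∧
      r = |(((Finset.range N).filter (fun n => z n ∈ Set.univ.pi I)).card : ℝ) / N -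
        (volume (Set.univ.pi I)).toReal|} := by
    refine ⟨1, ?_⟩
    rintro r ⟨I, hI, rfl⟩
    have h1 : ((((Finset.range N).filter (fun n => z n ∈ Set.univ.pi I)).card : ℝ)) / N ≤ 1 := by
      rw [div_le_one hN0]
      have := Finset.card_filter_le (Finset.range N) (fun n => z n ∈ Set.univ.pi I)
      rw [Finset.card_range] at this
      exact_mod_cast this
    have h2 : 0 ≤ ((((Finset.range N).filter (fun n => z n ∈ Set.univ.pi I)).card : ℝ)) / N := by
      positivity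
    have h3 := hvol I hI
    have h4 : 0 ≤ (volume (Set.univ.pi I)).toReal := ENNReal.toReal_nonneg
    rw [abs_le]
    constructor <;> linarith
  have hmem : |(((Finset.range N).filter
      (fun n => z n ∈ Set.univ.pi (fun i => Set.Icc 0 (x i)))).card : ℝ) / N -
      (volume (Set.univ.pi (fun i => Set.Icc 0 (x i)))).toReal| ≤ extDisc z N := by
    refine le_csSup hbdd ⟨fun i => Set.Icc 0 (x i), fun i => ⟨Set.ordConnected_Icc, ?_⟩, rfl⟩
    intro y hy
    exact ⟨hy.1, lt_of_le_of_lt hy.2 (hx i).2⟩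
  have hv : (volume (Set.univ.pi (fun i => Set.Icc 0 (x i)))).toReal = ∏ i, x i := by
    have h1 : (Set.univ.pi (fun i => Set.Icc 0 (x i))) = Set.Icc (0 : Fin d → ℝ) x := by
      rw [← Set.pi_univ_Icc]
      rfl
    rw [h1, Real.volume_Icc_pi_toReal (show (0 : Fin d → ℝ) ≤ x from fun i => (hx i).1.le)]
    simp
  have hc : DW (fun _ => 1) z 0 0 N x = N * ((((Finset.range N).filter
      (fun n => z n ∈ Set.univ.pi (fun i => Set.Icc 0 (x i)))).card : ℝ) / N - ∏ i, x i) := by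
    unfold DW
    rw [Finset.card_filter]
    push_cast
    rw [mul_sub, mul_div_cancel₀ _ hN0.ne']
    have h1 : ((0 : (Fin d → ℝ) → ℝ) x + ∑ i, (0 : Fin d → (Fin d → ℝ) → ℕ → ℝ) i x N) = 0 := by
      simp
    rw [h1, sub_zero]
    congr 1
    refine Finset.sum_congr rfl fun k _ => ?_
    rw [one_mul]
    have h2 : (∀ i, z k i ≤ x i) ↔ z k ∈ Set.univ.pi (fun i => Set.Icc 0 (x i)) :=
      ⟨fun h i _ => ⟨(hz k i).1, h i⟩, fun h i => (h i (Set.mem_univ i)).2⟩
    by_cases h3 : ∀ i, z k i ≤ x i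
    · rw [if_pos h3, if_pos (h2.1 h3)]
    · rw [if_neg h3, if_neg (fun h => h3 (h2.2 h))]
  rw [hc, abs_mul, abs_of_pos hN0]
  rw [hv] at hmem
  exact mul_le_mul_of_nonneg_left hmem hN0.le

/-- **The discrepancy of sequences at almost all times.** Let `d ≥ 2` and `ε > 0`. There are `A`, `c > 0`
and `H₀` with the following properties.
(1) For every sequence `z` in `[0,1)^d` and all `X ≥ H₀` the inequality
`N D_N < c (ln N)^((d+1)/2) / (1 + ln ln N)^A` holds for at most `X^ε` of the integers `16 ≤ N < X`.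
(2) For all points `z_0, z_1, ...` in `ℝ^d`, all real weights `w_0, w_1, ...`, every window
`s ≤ n < s + H` of `H ≥ H₀` consecutive integers and every `g (x, n) = f (x) + ∑_k h_k (x, n)`, `h_k`
independent of `x_k`, for all but at most `H^ε` of the integers `n` in the window there is an
`x ∈ (0,1)^d` with `|∑_(k<n, z_k ≤ x) w_k - n ∏ x_i - g (x, n)| ≥ c (ln H)^((d+1)/2) / (1 + ln ln H)^A`. -/
theorem result (d : ℕ) (hd : 2 ≤ d) (ε : ℝ) (hε : 0 < ε) : ∃ A : ℕ, ∃ c : ℝ, 0 < c ∧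
    ∃ H₀ : ℕ, 16 ≤ H₀ ∧
    (∀ z : ℕ → Fin d → ℝ, (∀ n i, 0 ≤ z n i ∧ z n i < 1) → ∀ X : ℕ, H₀ ≤ X →
      ({N : ℕ | 16 ≤ N ∧ N < X ∧ N * extDisc z N <
        c * (Real.log N) ^ (((d : ℝ) + 1) / 2) / (1 + Real.log (Real.log N)) ^ A}.ncard : ℝ) ≤
        (X : ℝ) ^ ε) ∧
    (∀ (z : ℕ → Fin d → ℝ) (w : ℕ → ℝ) (s H : ℕ), H₀ ≤ H →
      ∀ g : (Fin d → ℝ) → ℕ → ℝ, FewerVars g →
      ({n : ℕ | s ≤ n ∧ n < s + H ∧ ¬ ∃ x : Fin d → ℝ, (∀ i, 0 < x i ∧ x i < 1) ∧
        c * (Real.log H) ^ (((d : ℝ) + 1) / 2) / (1 + Real.log (Real.log H)) ^ A ≤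
          |wDisc w z n x - g x n|}.ncard : ℝ) ≤ (H : ℝ) ^ ε) := by
  classical
  obtain ⟨A₁, c₁, hc₁, H₁, hH₁, K₁⟩ := cor_log d hd ε hε
  obtain ⟨A₂, c₂, hc₂, H₂, hH₂, K₂⟩ := main_log d hd ε hε
  set A : ℕ := max A₁ A₂ with hA
  set c : ℝ := min c₁ c₂ with hc
  have hcpos : 0 < c := lt_min hc₁ hc₂
  -- comparison of the constants
  have hcomp : ∀ (X : ℝ), 16 ≤ X → ∀ (c' : ℝ) (A' : ℕ), c ≤ c' → 0 < c' → A' ≤ A →
      c * (Real.log X) ^ (((d : ℝ) + 1) / 2) / (1 + Real.log (Real.log X)) ^ A ≤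
      c' * (Real.log X) ^ (((d : ℝ) + 1) / 2) / (1 + Real.log (Real.log X)) ^ A' := by
    intro X hX c' A' hcc hc' hAA
    obtain ⟨h1, h2⟩ := log_facts hX
    have h3 : 0 < (Real.log X) ^ (((d : ℝ) + 1) / 2) := Real.rpow_pos_of_pos (by linarith) _
    have h4 : (1 + Real.log (Real.log X)) ^ A' ≤ (1 + Real.log (Real.log X)) ^ A :=
      pow_le_pow_right₀ (by linarith) hAA
    have h5 : 0 < (1 + Real.log (Real.log X)) ^ A' := by positivity
    exact div_le_div₀ (by positivity) (mul_le_mul_of_nonneg_right hcc h3.le) h5 h4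
  refine ⟨A, c, hcpos, max H₁ H₂, le_trans hH₁ (le_max_left _ _), ?_, ?_⟩
  · intro z hz X hX
    have hX1 : H₁ ≤ X := (le_max_left _ _).trans hX
    set S : Set ℕ := {N : ℕ | 16 ≤ N ∧ N < X ∧ N * extDisc z N <
        c * (Real.log N) ^ (((d : ℝ) + 1) / 2) / (1 + Real.log (Real.log N)) ^ A} with hS
    have hfin : S.Finite := (Set.finite_lt_nat X).subset fun N hN => hN.2.1
    rw [Set.ncard_eq_toFinset_card S hfin]
    refine K₁ z X hX1 hfin.toFinset ?_ ?_
    · intro n hn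
      have := hfin.mem_toFinset.1 hn
      exact ⟨this.1, this.2.1⟩
    · intro n hn x hx
      obtain ⟨h1, h2, h3⟩ := hfin.mem_toFinset.1 hn
      have hn16 : (16 : ℝ) ≤ n := by exact_mod_cast h1
      refine lt_of_le_of_lt (le_extDisc z hz n (by omega) x hx) (lt_of_lt_of_le h3 ?_)
      exact hcomp n hn16 c₁ A₁ (min_le_left _ _) hc₁ (le_max_left _ _)
  · intro z w s H hH g hg
    have hH2 : H₂ ≤ H := (le_max_right _ _).trans hH
    obtain ⟨f, h, hinv, rfl⟩ := hg
    set S : Set ℕ := {n : ℕ | s ≤ n ∧ n < s + H ∧ ¬ ∃ x : Fin d → ℝ,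
        (∀ i, 0 < x i ∧ x i < 1) ∧
        c * (Real.log H) ^ (((d : ℝ) + 1) / 2) / (1 + Real.log (Real.log H)) ^ A ≤
          |wDisc w z n x - (fun x n => f x + ∑ k, h k x n) x n|} with hS
    have hfin : S.Finite := (Set.finite_lt_nat (s + H)).subset fun N hN => hN.2.1
    rw [Set.ncard_eq_toFinset_card S hfin]
    refine K₂ w z f h hinv s H hH2 hfin.toFinset ?_ ?_
    · intro n hn
      have := hfin.mem_toFinset.1 hn
      exact ⟨this.1, this.2.1⟩
    · intro n hn x hx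
      obtain ⟨h1, h2, h3⟩ := hfin.mem_toFinset.1 hn
      push Not at h3
      have hH16 : (16 : ℝ) ≤ H := by
        have : 16 ≤ H := hH₂.trans hH2
        exact_mod_cast this
      have h4 := h3 x hx
      rw [DW_eq]
      exact lt_of_lt_of_le h4 (hcomp H hH16 c₂ A₂ (min_le_right _ _) hc₂ (le_max_right _ _))

end Pool.Agent.Results.MP_f4022e_nt.AlmostAllTimesHalfDim
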