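import Pool.Agent.H555.DN.Seqs3

set_option autoImplicit false

/-!
# The discrepancy of digital sequences over all finite fields, constants independent of the field

`F` is any finite field, `q` its number of elements, `s ≥ 2`. A digital sequence in `[0,1)^s` has
generating matrices `C j` with infinitely many rows and columns over `F`; the digits of the index
are mapped to `F` by injections `η l`, and the digits of the points are obtained by bijections
`ψ j i : F ≃ {0, …, q-1}`, both arbitrary. The conjectured lower bound `D_N ≥ c (log N)^s / N` for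
infinitely many `N` holds for all digital `(t,s)`-sequences over `F` with
`c = c_s / ((t+1)^a log q)^s`, `a = 1 + 1/(s-1)`, where `c_s > 0` depends only on the dimension `s`,
and, up to `(log log N)^(a s)` and with explicit dependence on `q`, for all digital sequences.
-/

namespace Pool.Agent.Results.MP_f4022e_nt.DigitalSequencesEveryField

open Finset MeasureTheory Filter

/-- The `i`-th digit in base `q` (`i = 0` is the first digit after the point) of `y ∈ [0,1)`. -/
noncomputable def digitAt (q i : ℕ) (y : ℝ) : ℕ := ⌊(q : ℝ) ^ (i + 1) * y⌋₊ % q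

/-- `B` is an axis-parallel box contained in `[0,1)^d`: a product of subintervals of `[0,1)` of any
kind (open, closed, half-open; `Set.OrdConnected` subsets of `ℝ` are exactly the intervals). -/
def IsBox {d : ℕ} (B : Set (Fin d → ℝ)) : Prop :=
  ∃ I : Fin d → Set ℝ, (∀ i, (I i).OrdConnected ∧ I i ⊆ Set.Ico 0 1) ∧ B = Set.univ.pi I

open Classical in
/-- `A_N(B)`: the number of indices `0 ≤ n < N` with `z_n ∈ B`. -/
noncomputable def countIn {d : ℕ} (z : ℕ → Fin d → ℝ) (N : ℕ) (B : Set (Fin d → ℝ)) : ℕ :=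
  ((Finset.range N).filter (fun n => z n ∈ B)).card

/-- `D_N`: the (extreme) discrepancy of the first `N` points of the sequence `z`, the supremum of
`|A_N(B) / N - λ(B)|` over all axis-parallel boxes `B` contained in `[0,1)^d`. -/
noncomputable def discrepancy {d : ℕ} (z : ℕ → Fin d → ℝ) (N : ℕ) : ENNReal :=
  ⨆ (B : Set (Fin d → ℝ)) (_ : IsBox B),
    ENNReal.ofReal |(countIn z N B : ℝ) / N - (volume B).toReal|

/-- `x` is a digital sequence in `[0,1)^s` over `F`, `q = |F|`: the `i`-th base-`q` digit of the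
coordinate `j` of `x_n` is `ψ j i (Σ_l C j i l · η l (n_l))`, where `n_l` are the base-`q` digits
of `n`; the maps `η l` are injective on `{0, …, q-1}` and `η l 0 = 0` for `l ≥ l₀`, so that the sum
(taken over `l < n + l₀`) is the full sum. -/
def IsDigitalSeq {F : Type} [Field F] [Fintype F] {s : ℕ} (C : Fin s → ℕ → ℕ → F) (l₀ : ℕ)
    (η : ℕ → ℕ → F) (ψ : Fin s → ℕ → (F ≃ Fin (Fintype.card F))) (x : ℕ → Fin s → ℝ) : Prop :=
  (∀ l, Set.InjOn (η l) (Set.Iio (Fintype.card F))) ∧ (∀ l, l₀ ≤ l → η l 0 = 0) ∧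
  ∀ n j, 0 ≤ x n j ∧ x n j < 1 ∧ ∀ i, digitAt (Fintype.card F) i (x n j) =
    (ψ j i (∑ l ∈ range (n + l₀), C j i l * η l (n / Fintype.card F ^ l % Fintype.card F)) : ℕ)

open Classical in
/-- `(t,s)`-sequences in base `b`: for all `k`, `m` the points `x_n`, `k b^m ≤ n < (k+1) b^m`, form
a `(t,m,s)`-net: every elementary interval of volume `b^(t-m)` contains exactly `b^t` of them. -/
def IsTSeq (b t : ℕ) {s : ℕ} (x : ℕ → Fin s → ℝ) : Prop :=
  ∀ k m : ℕ, ∀ κ v : Fin s → ℕ, ∑ i, κ i + t = m → (∀ i, v i < b ^ κ i) →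
    ((Ico (k * b ^ m) ((k + 1) * b ^ m)).filter (fun n => ∀ i, (v i : ℝ) / (b:ℝ) ^ κ i ≤ x n i ∧
      x n i < ((v i : ℝ) + 1) / (b:ℝ) ^ κ i)).card = b ^ t

/-- **Theorem.** Lower bounds for the discrepancy of digital sequences over all finite fields, with
a constant that depends only on the dimension. -/
theorem result (s : ℕ) (hs : 2 ≤ s) :
    ∃ c : ℝ, 0 < c ∧ ∀ (F : Type) [Field F] [Fintype F] (C : Fin s → ℕ → ℕ → F) (l₀ : ℕ)
      (η : ℕ → ℕ → F) (ψ : Fin s → ℕ → (F ≃ Fin (Fintype.card F)))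
      (x : ℕ → Fin s → ℝ), IsDigitalSeq C l₀ η ψ x →
      (∀ t : ℕ, IsTSeq (Fintype.card F) t x →
        (∀ m : ℕ, ∃ N : ℕ, 1 ≤ N ∧ N ≤ Fintype.card F ^ m ∧
          ENNReal.ofReal (c * ((m : ℝ) / ((t : ℝ) + 1) ^ (1 + 1 / ((s : ℝ) - 1))) ^ s / N) ≤ discrepancy x N) ∧
        ∃ᶠ N : ℕ in atTop,
          ENNReal.ofReal (c * (Real.log N / (((t : ℝ) + 1) ^ (1 + 1 / ((s : ℝ) - 1)) *
            Real.log (Fintype.card F))) ^ s / N) ≤ discrepancy x N) ∧
      ∀ m : ℕ, ∃ N : ℕ, 1 ≤ N ∧ N ≤ Fintype.card F ^ m ∧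
        ENNReal.ofReal (c * ((m : ℝ) /
          (1 + Real.log m / Real.log (Fintype.card F)) ^ (1 + 1 / ((s : ℝ) - 1))) ^ s / N) ≤ discrepancy x N :=
  Pool.Agent.H555.DN.seq_lower3 s hs

end Pool.Agent.Results.MP_f4022e_nt.DigitalSequencesEveryField
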