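import Pool.Agent.H553.BX.Seq

/-!
# Discrepancy of sequences over windows of indices and in small boxes: the exponent `(d+1)/2`

For every sequence in `[0,1]^d`, `d ≥ 2`, every window of `H` consecutive numbers `n` and every box `B`
with `V = H |B|` large, the discrepancy function of the first `n` terms, minus an arbitrary function of
the position `x` alone and arbitrary functions of `n` and `d - 1` of the coordinates of `x`, is at least
`c (ln V)^((d+1)/2) / (1 + ln ln V)^A` somewhere, and its `L_p` means over the window and the box are at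
least `c (ln V)^(d/2) min(√p, √(ln V)) / (1 + ln ln V)^A` for all `1 ≤ p ≤ ∞`.
-/

set_option autoImplicit false

namespace Pool.Agent.Results.MP_f4022e_nt.HalfDimWindows

open MeasureTheory

/-- The discrepancy function of the first `n` terms of the sequence `z`: the number of the terms
`z_0, ..., z_(n-1)` in `[0,x]` minus `n ∏ x_j`. -/
noncomputable def seqDisc {d : ℕ} (z : ℕ → Fin d → ℝ) (n : ℕ) (x : Fin d → ℝ) : ℝ :=
  ∑ k ∈ Finset.range n, (Set.Icc (0 : Fin d → ℝ) x).indicator (fun _ => (1 : ℝ)) (z k) -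
    n * ∏ j, x j

/-- `g (x, n) = f (x) + ∑_k h_k (x, n)` where `h_k` does not depend on `x_k` (all measurable). -/
def FewerVars {d : ℕ} (g : (Fin d → ℝ) → ℕ → ℝ) : Prop :=
  ∃ (f : (Fin d → ℝ) → ℝ) (h : Fin d → (Fin d → ℝ) → ℕ → ℝ), Measurable f ∧
    (∀ k n, Measurable fun x => h k x n) ∧
    (∀ (k : Fin d) (x : Fin d → ℝ) (t : ℝ) (n : ℕ), h k (Function.update x k t) n = h k x n) ∧
    g = fun x n => f x + ∑ k, h k x n

/-- The `L_p` mean of `F (x, n)` over `x` in the set `B` (Lebesgue measure divided by `|B|`) and `n` in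
the finite set `W` (all `n` with the same weight `1 / |W|`). -/
noncomputable def meanOver {d : ℕ} (p : ENNReal) (B : Set (Fin d → ℝ)) (W : Finset ℕ)
    (F : (Fin d → ℝ) → ℕ → ℝ) : ENNReal :=
  eLpNorm (fun v : (Fin d → ℝ) × ℕ => F v.1 v.2) p
    (((volume B)⁻¹ • volume.restrict B).prod
      ((W.card : ENNReal)⁻¹ • Measure.count.restrict (W : Set ℕ)))

theorem F_eq {d : ℕ} (z : ℕ → Fin d → ℝ) (hz : ∀ n, z n ∈ Set.Icc (0 : Fin d → ℝ) 1)
    (f : (Fin d → ℝ) → ℝ) (h : Fin d → (Fin d → ℝ) → ℕ → ℝ) (v : (Fin d → ℝ) × ℕ) :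
    N628.SW.F z f h v = seqDisc z v.2 v.1 - (f v.1 + ∑ k, h k v.1 v.2) := by
  unfold N628.SW.F N628.SW.S seqDisc
  have : ∀ k, (Set.Icc (0 : Fin d → ℝ) v.1).indicator (fun _ => (1:ℝ)) (z k) =
      (if ∀ i, z k i ≤ v.1 i then (1 : ℝ) else 0) := by
    intro k
    have hiff : z k ∈ Set.Icc (0 : Fin d → ℝ) v.1 ↔ ∀ i, z k i ≤ v.1 i :=
      ⟨fun h i => h.2 i, fun h => ⟨(hz k).1, h⟩⟩
    by_cases hx : ∀ i, z k i ≤ v.1 i
    · rw [if_pos hx, Set.indicator_of_mem (hiff.2 hx)]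
    · rw [if_neg hx, Set.indicator_of_notMem (fun h => hx (hiff.1 h))]
  simp only [this]
  ring

/-- **Discrepancy of sequences over windows and in small boxes.** For every `d ≥ 2` there are `A`,
`c > 0` and `V₀` with the following property. Let `z` be any sequence in `[0,1]^d`, let
`n₀ ≤ n < n₀ + H` be any window of `H ≥ 1` consecutive integers, `B = [a,b] ⊆ [0,1]^d` a box with
`V = H |B| ≥ V₀`, and `g (x, n) = f (x) + ∑_k h_k (x, n)`, where `h_k` does not depend on `x_k`. Then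
(1) for some `n` in the window and some `x` in the box
`|A_n ([0,x]) - n ∏ x_j - g (x, n)| ≥ c (ln V)^((d+1)/2) / (1 + ln ln V)^A`;
(2) for every `1 ≤ p ≤ ∞` the `L_p` mean of this function over the window and the box is at least
`c (ln V)^(d/2) / (1 + ln ln V)^A` times the smaller one of `√p` and `√(ln V)`. -/
theorem result (d : ℕ) (hd : 2 ≤ d) : ∃ A : ℕ, ∃ c : ℝ, 0 < c ∧ ∃ V₀ : ℝ, 16 ≤ V₀ ∧
    ∀ z : ℕ → Fin d → ℝ, (∀ n, z n ∈ Set.Icc (0 : Fin d → ℝ) 1) →
    ∀ n₀ H : ℕ, 1 ≤ H → ∀ a b : Fin d → ℝ, (∀ i, a i < b i) → (∀ i, 0 ≤ a i) → (∀ i, b i ≤ 1) →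
    V₀ ≤ H * ∏ i, (b i - a i) →
    ∀ g : (Fin d → ℝ) → ℕ → ℝ, FewerVars g →
      (∃ n x, n₀ ≤ n ∧ n < n₀ + H ∧ x ∈ Set.Icc a b ∧
        c * (Real.log (H * ∏ i, (b i - a i))) ^ (((d : ℝ) + 1) / 2) /
          (1 + Real.log (Real.log (H * ∏ i, (b i - a i)))) ^ A ≤
        |seqDisc z n x - g x n|) ∧
      ∀ p : ENNReal, 1 ≤ p →
        ENNReal.ofReal (c * (Real.log (H * ∏ i, (b i - a i))) ^ ((d : ℝ) / 2) /
            (1 + Real.log (Real.log (H * ∏ i, (b i - a i)))) ^ A) *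
          min (p ^ (1 / 2 : ℝ)) (ENNReal.ofReal
            ((Real.log (H * ∏ i, (b i - a i))) ^ (1 / 2 : ℝ))) ≤
        meanOver p (Set.Icc a b) (Finset.Ico n₀ (n₀ + H)) (fun x n => seqDisc z n x - g x n) := by
  obtain ⟨A, c, hc, V₀, hV₀, K⟩ := Pool.Agent.H553.BX.seqH_sup d hd
  refine ⟨A, c, hc, V₀, hV₀, ?_⟩
  intro z hz n₀ H hH a b hab ha hb hV g hg
  obtain ⟨f, h, hf, hh, hi, rfl⟩ := hg
  have hFF : N628.SW.F z f h = fun v : (Fin d → ℝ) × ℕ =>
      (fun (x : Fin d → ℝ) (n : ℕ) => seqDisc z n x - (f x + ∑ k, h k x n)) v.1 v.2 := by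
    funext v
    exact F_eq z hz f h v
  obtain ⟨K1, n, x, hn1, hn2, hx, h2⟩ := K n₀ H hH a b hab ha hb hV z f hf h hh hi
  constructor
  · refine ⟨n, x, hn1, hn2, hx, ?_⟩
    rw [F_eq z hz f h] at h2
    exact h2
  · intro p hp
    have h1 := K1 p hp
    rw [hFF] at h1
    exact h1

end Pool.Agent.Results.MP_f4022e_nt.HalfDimWindows
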