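import Pool.Agent.H610.Seq
import Pool.Graph.R_pool_sql_team_seeded_3dad9d7b.NH94.W.Final
import Pool.Graph.R_pool_sql_team_seeded_3dad9d7b.NH43.Q.Core

set_option autoImplicit false

/-!
# Infinite sequences: saving the power `1/6` of the logarithm in every dimension `d ≥ 2`

The definitions `IsBox`, `countIn`, `discrepancy` are in `Pool.Agent.H610.Seq`:
* `IsBox B`: `B` is a product of subintervals (of any kind) of `[0,1)`;
* `countIn z N B`: the number `A_N(B)` of indices `0 ≤ n < N` with `z_n ∈ B`;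
* `discrepancy z N`: the supremum `D_N` of `|A_N(B) / N - λ(B)|` over all such boxes `B`.
-/

namespace Pool.Agent.Results.MP_f4022e_nt.SequencePowerSixth

open MeasureTheory Filter Pool.Agent.H610.Seq

/-- the exponent `d - 1/6`, for sequences in dimension `d ≥ 2` -/
theorem seq_sixth (d : ℕ) (hd : 2 ≤ d) : ∃ z : ℕ → Fin d → ℝ,
    (∀ k j, 0 ≤ z k j ∧ z k j < 1) ∧
    ∃ C : ℝ, 0 < C ∧ ∀ N : ℕ, 3 ≤ N → discrepancy z N ≤
      ENNReal.ofReal (C * (Real.log N) ^ ((d:ℝ) - 1 / 6) *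
        (Real.log (Real.log N)) ^ 2 / N) := by
  have hd2 : (2:ℝ) ≤ d := by exact_mod_cast hd
  apply seq_pow d ((d:ℝ) - 1 / 6) (by linarith) 2
  rcases Nat.eq_or_lt_of_le hd with h | h
  · subst h
    have e : (((2:ℕ):ℝ) - 1 / 6) = 11 / 6 := by norm_num
    rw [e]
    exact Pool.Agent.NH43.Q.star3_open
  · obtain ⟨k, rfl⟩ : ∃ k, d = k + 1 := ⟨d - 1, by omega⟩
    have e : (((k + 1 : ℕ):ℝ) - 1 / 6) = (k:ℝ) + 1 - 1 / 6 := by push_cast; ring
    rw [e]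
    exact Pool.Agent.NH94.W.g_w21 k (by omega)

/-- **The conjectured lower bound for infinite sequences fails by the power `1/6` of the logarithm in
every dimension `d ≥ 2`.** For every `d ≥ 2` there are `C > 0` and a sequence in `[0,1)^d` whose
extreme discrepancy satisfies `D_N ≤ C (log N)^(d - 1/6) (log log N)^2 / N` for all `N ≥ 3`.
Consequently, for every `κ < 1/6`, this sequence has `D_N < c (log N)^(d - κ) / N` for every `c > 0`
and all large `N`, and no `c > 0` has the property that all sequences in `[0,1)^d` satisfy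
`D_N ≥ c (log N)^(d - κ) / N` for infinitely many `N` (in particular for `κ = 0`). -/
theorem result : ∀ d : ℕ, 2 ≤ d →
    (∃ z : ℕ → Fin d → ℝ, (∀ n i, z n i ∈ Set.Ico (0:ℝ) 1) ∧
      (∃ C : ℝ, 0 < C ∧ ∀ N : ℕ, 3 ≤ N → discrepancy z N ≤
        ENNReal.ofReal (C * (Real.log N) ^ ((d:ℝ) - 1 / 6) *
          (Real.log (Real.log N)) ^ 2 / N)) ∧
      (∀ κ : ℝ, κ < 1 / 6 → ∀ c : ℝ, 0 < c → ∀ᶠ N : ℕ in atTop,
        discrepancy z N < ENNReal.ofReal (c * (Real.log N) ^ ((d:ℝ) - κ) / N)) ∧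
      (∀ c : ℝ, 0 < c → ∀ᶠ N : ℕ in atTop,
        discrepancy z N < ENNReal.ofReal (c * (Real.log N) ^ d / N))) ∧
    (∀ κ : ℝ, κ < 1 / 6 →
      ¬ ∃ c : ℝ, 0 < c ∧ ∀ z : ℕ → Fin d → ℝ, (∀ n i, z n i ∈ Set.Ico (0:ℝ) 1) →
        ∃ᶠ N : ℕ in atTop, ENNReal.ofReal (c * (Real.log N) ^ ((d:ℝ) - κ) / N) ≤
          discrepancy z N) ∧
    (¬ ∃ c : ℝ, 0 < c ∧ ∀ z : ℕ → Fin d → ℝ, (∀ n i, z n i ∈ Set.Ico (0:ℝ) 1) →
      ∃ᶠ N : ℕ in atTop, ENNReal.ofReal (c * (Real.log N) ^ d / N) ≤ discrepancy z N) := by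
  intro d hd
  obtain ⟨z, hz, C, hC, h⟩ := seq_sixth d hd
  have hz' : ∀ n i, z n i ∈ Set.Ico (0:ℝ) 1 := fun k i => ⟨(hz k i).1, (hz k i).2⟩
  have ev1 : ∀ κ : ℝ, κ < 1 / 6 → ∀ c : ℝ, 0 < c →
      ∀ᶠ N : ℕ in atTop,
      discrepancy z N < ENNReal.ofReal (c * (Real.log N) ^ ((d : ℝ) - κ) / N) :=
    fun κ hκ => eventually_lt 2 hC (by linarith) h
  have ev2 : ∀ c : ℝ, 0 < c → ∀ᶠ N : ℕ in atTop,
      discrepancy z N < ENNReal.ofReal (c * (Real.log N) ^ d / N) := by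
    intro c hc
    filter_upwards [ev1 0 (by norm_num) c hc] with N hN
    rwa [sub_zero, Real.rpow_natCast] at hN
  refine ⟨⟨z, hz', ⟨C, hC, h⟩, ev1, ev2⟩, ?_, ?_⟩
  · rintro κ hκ ⟨c, hc, h'⟩
    obtain ⟨N, h5, h6⟩ := ((h' z hz').and_eventually (ev1 κ hκ c hc)).exists
    exact absurd h6 (not_lt.2 h5)
  · rintro ⟨c, hc, h'⟩
    obtain ⟨N, h5, h6⟩ := ((h' z hz').and_eventually (ev2 c hc)).exists
    exact absurd h6 (not_lt.2 h5)

end Pool.Agent.Results.MP_f4022e_nt.SequencePowerSixth
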